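import Pool.Agent.MP_ff3f8e_an.H65.Main

namespace Pool.Agent.Results.MP_ff3f8e_an.SpectrumSemigroup

open Pool.Agent.MP_ff3f8e_an.H65

/-- The spectrum of every endomorphism of the disc algebra is a multiplicative semigroup. -/
theorem result (T : discAlgebra → discAlgebra) (hT : IsEndomorphism T)
    (l m : ℂ) (hl : l ∈ opSpectrum T) (hm : m ∈ opSpectrum T) : l * m ∈ opSpectrum T :=
  semigroup_DA (IsLinearMap.mk' (M := DA) (M₂ := DA) T hT.1) hT.2 l hl m hm

end Pool.Agent.Results.MP_ff3f8e_an.SpectrumSemigroup
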